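import Mathlib

/-!
# Cut locus and separating set of a curve in the Euclidean plane (definitions)

The ambient manifold is the Euclidean plane: `F` is the Euclidean norm, geodesics are straight
lines, tangent vectors at `p` are pairs `(p, v)`, and `exp (p, v) = p + v`.  The submanifold is a
regular level set `N = g⁻¹(0)` of a smooth function, with tangent space `ker dg_p` at `p`.
-/

set_option autoImplicit false

open Set
open scoped InnerProductSpace ContDiff

namespace Pool.Agent.H760Z.Cut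

/-- The Euclidean plane. -/
abbrev Plane : Type := EuclideanSpace ℝ (Fin 2)

/-- The zero set `N = g⁻¹(0)`. -/
def zeroSet (g : Plane → ℝ) : Set Plane := {p | g p = 0}

/-- `g` is smooth and `0` is a regular value, so that `N = g⁻¹(0)` is a closed embedded smooth
curve (one-dimensional submanifold) with tangent space `ker dg_p` at `p`. -/
def IsRegularDefiningFunction (g : Plane → ℝ) : Prop :=
  ContDiff ℝ ∞ g ∧ ∀ p ∈ zeroSet g, fderiv ℝ g p ≠ 0

/-- The unit normal bundle `S(ν)`: pairs `(p, v)` with `p ∈ N`, `‖v‖ = 1`, `v ⊥ T_p N`. -/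
def unitNormals (g : Plane → ℝ) : Set (Plane × Plane) :=
  {u | u.1 ∈ zeroSet g ∧ ‖u.2‖ = 1 ∧ ∀ w : Plane, fderiv ℝ g u.1 w = 0 → ⟪u.2, w⟫_ℝ = 0}

/-- The cut time `ρ(p, v) = sup {t : d(N, p + t v) = t}` is finite and equal to `r`. -/
def IsCutTime (g : Plane → ℝ) (u : Plane × Plane) (r : ℝ) : Prop :=
  IsLUB {t : ℝ | 0 ≤ t ∧ Metric.infDist (u.1 + t • u.2) (zeroSet g) = t} r

/-- The tangent cut locus: the vectors `ρ(v) v`, `v ∈ S(ν)`, `ρ(v) < ∞`. -/
def tangentCutLocus (g : Plane → ℝ) : Set (Plane × Plane) :=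
  {x | ∃ u ∈ unitNormals g, ∃ r : ℝ, IsCutTime g u r ∧ x = (u.1, r • u.2)}

/-- The normal exponential map. -/
def normalExp (x : Plane × Plane) : Plane := x.1 + x.2

/-- The cut locus `Cu(N)`. -/
def cutLocus (g : Plane → ℝ) : Set Plane := normalExp '' tangentCutLocus g

/-- `γ` restricted to `[0, l]` is an `N`-segment: a unit speed geodesic starting on `N` with
`d(N, γ(l)) = l`. -/
def IsSegment (g : Plane → ℝ) (γ : ℝ → Plane) (l : ℝ) : Prop :=
  0 ≤ l ∧ (∃ a ∈ zeroSet g, ∃ v : Plane, ‖v‖ = 1 ∧ ∀ t ∈ Icc 0 l, γ t = a + t • v) ∧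
    Metric.infDist (γ l) (zeroSet g) = l

/-- The separating set `Se(N)`: points joined to `N` by two distinct `N`-segments (both then have
length `l = d(N, x)`). -/
def sepSet (g : Plane → ℝ) : Set Plane :=
  {x | ∃ (γ₁ γ₂ : ℝ → Plane) (l : ℝ), IsSegment g γ₁ l ∧ IsSegment g γ₂ l ∧ γ₁ l = x ∧ γ₂ l = x ∧
    ∃ t ∈ Icc 0 l, γ₁ t ≠ γ₂ t}

/-- The tangent separating set. -/
def tangentSepSet (g : Plane → ℝ) : Set (Plane × Plane) :=
  {x ∈ tangentCutLocus g | normalExp x ∈ sepSet g}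

end Pool.Agent.H760Z.Cut
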