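import Pool.Agent.H760Z.Cut.Defs

/-! # Analysis near one bump and at the limit point -/

set_option autoImplicit false

open Set Metric Filter Topology
open scoped InnerProductSpace ContDiff

namespace Pool.Agent.H760Z.Cut

/-- the defining function attached to a perturbation -/
noncomputable def gOf (φ : Plane → ℝ) (z : Plane) : ℝ := ‖z‖ ^ 2 - 1 - φ z

lemma mem_zeroSet_gOf (φ : Plane → ℝ) (z : Plane) :
    z ∈ zeroSet (gOf φ) ↔ ‖z‖ ^ 2 = 1 + φ z := by
  simp only [zeroSet, gOf, mem_ofPred_eq]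
  constructor <;> intro h <;> linarith

lemma norm_sub_smul_sq (u z : Plane) (hu : ‖u‖ = 1) (c : ℝ) :
    ‖z - c • u‖ ^ 2 = ‖z‖ ^ 2 - 2 * c * ⟪u, z⟫_ℝ + c ^ 2 := by
  rw [norm_sub_sq_real, inner_smul_right, norm_smul, hu, real_inner_comm]
  simp
  ring

lemma not_mem_sepSet (g : Plane → ℝ) (x q : Plane) (r : ℝ) (hr : 0 < r)
    (hd : infDist x (zeroSet g) = r) (huniq : ∀ z ∈ zeroSet g, ‖x - z‖ = r → z = q) :
    x ∉ sepSet g := by
  rintro ⟨γ₁, γ₂, l, ⟨hl, ⟨a, ha, v, hv, h1⟩, hd1⟩, ⟨-, ⟨a', ha', v', hv', h2⟩, -⟩, e1, e2, t, ht, hne⟩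
  rw [e1, hd] at hd1
  subst hd1
  have e3 : x = a + r • v := by rw [← e1, h1 r ⟨hl, le_rfl⟩]
  have e4 : x = a' + r • v' := by rw [← e2, h2 r ⟨hl, le_rfl⟩]
  have e5 : a = q := huniq a ha (by rw [e3]; simp [norm_smul, hv, abs_of_pos hr])
  have e6 : a' = q := huniq a' ha' (by rw [e4]; simp [norm_smul, hv', abs_of_pos hr])
  have e7 : v = v' := by
    have : r • v = r • v' := by
      have h := e3.symm.trans e4
      rw [e5, e6] at h
      exact add_left_cancel h
    exact smul_right_injective _ hr.ne' this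
  apply hne
  rw [h1 t ht, h2 t ht, e5, e6, e7]

theorem local_cut (φ : Plane → ℝ) (hφ0 : ∀ z, 0 ≤ φ z) (u w : Plane) (hu : ‖u‖ = 1) (hw : ‖w‖ = 1)
    (huw : ⟪u, w⟫_ℝ = 0) (ρ δ : ℝ) (hρ : 0 < ρ) (hρ1 : ρ ≤ 1 / 2) (hδ : 0 < δ) (hδ1 : δ ≤ 1 / 2)
    (hloc : ∀ z ∈ ball u ρ, φ z = δ * (⟪u, z⟫_ℝ - (1 - ρ ^ 2 / 2)) ^ 2) :
    ∃ y c : ℝ, 1 ≤ y ∧ y ≤ 1 + ρ ∧ 0 ≤ c ∧ c ≤ δ ∧
      (y • u, (y - c) • (-u)) ∈ tangentCutLocus (gOf φ) ∧ c • u ∉ sepSet (gOf φ) := by
  set b : ℝ := 1 - ρ ^ 2 / 2 with hb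
  have huu : ⟪u, u⟫_ℝ = 1 := by rw [real_inner_self_eq_norm_sq, hu]; norm_num
  obtain ⟨y, ⟨hy1, hy2⟩, hy⟩ : ∃ y ∈ Icc (1 : ℝ) (1 + ρ / 2), 1 + δ * (y - b) ^ 2 - y ^ 2 = 0 := by
    apply intermediate_value_Icc' (by linarith)
      (f := fun y : ℝ => 1 + δ * (y - b) ^ 2 - y ^ 2) (by fun_prop)
    constructor
    · show 1 + δ * (1 + ρ / 2 - b) ^ 2 - (1 + ρ / 2) ^ 2 ≤ 0
      have h1 : (1 + ρ / 2 - b) ^ 2 ≤ ρ ^ 2 := by
        apply pow_le_pow_left₀ (by rw [hb]; nlinarith)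
        rw [hb]; nlinarith
      have h2 : δ * (1 + ρ / 2 - b) ^ 2 ≤ 1 / 2 * ρ ^ 2 :=
        mul_le_mul hδ1 h1 (sq_nonneg _) (by norm_num)
      nlinarith
    · show 0 ≤ 1 + δ * (1 - b) ^ 2 - 1 ^ 2
      nlinarith [mul_nonneg hδ.le (sq_nonneg (1 - b))]
  have hρ2 : ρ ^ 2 ≤ ρ / 2 := by nlinarith
  have hyb : ρ ^ 2 / 2 ≤ y - b := by rw [hb]; linarith
  have hyb0 : 0 < y - b := lt_of_lt_of_le (by positivity) hyb
  have hyb1 : y - b ≤ 1 := by rw [hb]; linarith
  set c : ℝ := δ * (y - b) with hc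
  have hc0 : 0 < c := mul_pos hδ hyb0
  have hcδ : c ≤ δ := mul_le_of_le_one_right hδ.le hyb1
  set r : ℝ := y - c with hr
  have hr0 : 0 < r := by rw [hr]; linarith
  set q : Plane := y • u with hq
  have hqball : q ∈ ball u ρ := by
    rw [mem_ball_iff_norm, hq]
    have : y • u - u = (y - 1) • u := by rw [sub_smul, one_smul]
    rw [this, norm_smul, hu, Real.norm_eq_abs, abs_of_nonneg (by linarith)]
    linarith
  have huq : ⟪u, q⟫_ℝ = y := by rw [hq, inner_smul_right, huu, mul_one]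
  have hqn : ‖q‖ ^ 2 = y ^ 2 := by rw [hq, norm_smul, hu]; simp
  have hqN : q ∈ zeroSet (gOf φ) := by
    rw [mem_zeroSet_gOf, hloc q hqball, huq, hqn]; linarith
  -- the key inequality
  have key : ∀ z ∈ zeroSet (gOf φ), r ^ 2 ≤ ‖z - c • u‖ ^ 2 ∧ (‖z - c • u‖ ^ 2 = r ^ 2 → z = q) := by
    intro z hz
    rw [mem_zeroSet_gOf] at hz
    rw [norm_sub_smul_sq u z hu, hz]
    set Y := ⟪u, z⟫_ℝ with hY
    by_cases hzb : z ∈ ball u ρ
    · have h1 := hloc z hzb
      have h2 : 1 + φ z - 2 * c * Y + c ^ 2 - r ^ 2 = δ * (Y - y) ^ 2 := by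
        rw [h1, hr, hc]; linear_combination hy
      refine ⟨by linarith [mul_nonneg hδ.le (sq_nonneg (Y - y))], fun h => ?_⟩
      have h3 : δ * (Y - y) ^ 2 = 0 := by linarith
      have h4 : Y = y := by
        have := (mul_eq_zero.mp h3).resolve_left hδ.ne'
        exact sub_eq_zero.mp (pow_eq_zero_iff (by norm_num) |>.mp this)
      have h5 : ‖z - y • u‖ ^ 2 = 0 := by
        rw [norm_sub_smul_sq u z hu, hz, h1, ← hY, h4]; linear_combination hy
      exact sub_eq_zero.mp (norm_eq_zero.mp (pow_eq_zero_iff (by norm_num) |>.mp h5))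
    · rw [mem_ball_iff_norm, not_lt] at hzb
      have h1 : ρ ^ 2 ≤ ‖z - (1 : ℝ) • u‖ ^ 2 := by
        rw [one_smul]; exact pow_le_pow_left₀ hρ.le hzb 2
      rw [norm_sub_smul_sq u z hu, hz, ← hY] at h1
      have h2 : 1 + φ z - 2 * c * Y + c ^ 2 - r ^ 2 = φ z - c * (2 * Y - y - b) := by
        rw [hr, hc]; linear_combination hy
      have h3 : 2 * Y - y - b ≤ φ z - ρ ^ 2 / 2 := by rw [hb]; linarith
      have h4 : c * (2 * Y - y - b) ≤ c * (φ z - ρ ^ 2 / 2) := mul_le_mul_of_nonneg_left h3 hc0.le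
      have h5 : c * φ z ≤ φ z := mul_le_of_le_one_left (hφ0 z) (by linarith)
      have h6 : 0 < c * (ρ ^ 2 / 2) := by positivity
      have h7 : 0 < 1 + φ z - 2 * c * Y + c ^ 2 - r ^ 2 := by
        rw [h2]; rw [mul_sub c (φ z)] at h4; linarith
      exact ⟨by linarith, fun h => absurd h (by linarith)⟩
  have hqc : ‖c • u - q‖ = r := by
    have : c • u - q = (-r) • u := by rw [hq, hr, ← sub_smul]; congr 1; ring
    rw [this, norm_smul, hu, Real.norm_eq_abs, abs_neg, abs_of_pos hr0, mul_one]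
  have hdist : infDist (c • u) (zeroSet (gOf φ)) = r := by
    apply le_antisymm
    · rw [← hqc, ← dist_eq_norm]; exact infDist_le_dist_of_mem hqN
    · rw [le_infDist ⟨q, hqN⟩]
      intro z hz
      rw [dist_comm, dist_eq_norm]
      exact abs_le_of_sq_le_sq' (key z hz).1 (norm_nonneg _) |>.2
  refine ⟨y, c, hy1, by linarith, hc0.le, hcδ, ⟨(q, -u), ⟨hqN, by simpa using hu, ?_⟩, r, ?_, rfl⟩,
    not_mem_sepSet _ _ q r hr0 hdist (fun z hz h => (key z hz).2 (by rw [norm_sub_rev, h]))⟩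
  · -- normality
    intro v hv
    have h1 : gOf φ =ᶠ[𝓝 q] fun z => ‖z‖ ^ 2 - 1 - δ * ((⟪u, z⟫_ℝ - b) * (⟪u, z⟫_ℝ - b)) := by
      filter_upwards [isOpen_ball.mem_nhds hqball] with z hz
      rw [gOf, hloc z hz, sq (⟪u, z⟫_ℝ - b)]
    have h2 : HasFDerivAt (fun z : Plane => ⟪u, z⟫_ℝ - b) (innerSL ℝ u) q :=
      (innerSL ℝ u).hasFDerivAt.sub_const b
    have h3 := ((hasStrictFDerivAt_norm_sq q).hasFDerivAt.sub_const 1).sub
      ((h2.mul h2).const_mul δ)
    have h4 := (h3.congr_of_eventuallyEq h1).fderiv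
    simp only at hv
    rw [h4] at hv
    simp only [sub_apply, smul_apply, add_apply, innerSL_apply_apply, huq, smul_eq_mul,
      nsmul_eq_mul, Nat.cast_ofNat] at hv
    rw [hq, inner_smul_left] at hv
    simp only [conj_trivial] at hv
    have h5 : 2 * r * ⟪u, v⟫_ℝ = 0 := by rw [hr, hc]; linarith
    have h6 : ⟪u, v⟫_ℝ = 0 := (mul_eq_zero.mp h5).resolve_left (by positivity)
    simp [h6]
  · -- cut time
    apply IsGreatest.isLUB
    constructor
    · refine ⟨hr0.le, ?_⟩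
      have : q + r • (-u) = c • u := by
        rw [hq, smul_neg, ← sub_eq_add_neg, ← sub_smul, hr]; congr 1; ring
      simp only
      rw [this, hdist]
    · rintro t ⟨ht0, ht⟩
      by_contra hlt
      rw [not_le] at hlt
      set s := t - r with hs
      have hs0 : 0 < s := by rw [hs]; linarith
      set ε := min s (ρ ^ 2 / 8) with hε
      have hε0 : 0 < ε := lt_min hs0 (by positivity)
      have hε1 : ε ≤ s := min_le_left _ _
      have hε2 : ε ≤ ρ ^ 2 / 8 := min_le_right _ _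
      set Y := y - ε with hY
      set H := 1 + δ * (Y - b) ^ 2 - Y ^ 2 with hH
      have hH1 : H = ε * ((2 * y - ε) - δ * (2 * y - ε - 2 * b)) := by
        rw [hH, hY]; linear_combination hy
      have hb0 : 0 ≤ b := by rw [hb]; linarith
      have h1 : 0 ≤ 2 * y - ε - 2 * b := by linarith
      have h2 : δ * (2 * y - ε - 2 * b) ≤ 2 * y - ε - 2 * b :=
        mul_le_of_le_one_left h1 (by linarith)
      have hH0 : 0 ≤ H := by rw [hH1]; apply mul_nonneg hε0.le; linarith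
      have hH2 : H ≤ 3 * ε := by
        rw [hH1]
        have : (2 * y - ε) - δ * (2 * y - ε - 2 * b) ≤ 3 := by
          linarith [mul_nonneg hδ.le h1]
        rw [mul_comm 3 ε]
        exact mul_le_mul_of_nonneg_left this hε0.le
      set z : Plane := Y • u + Real.sqrt H • w with hz
      have huz : ⟪u, z⟫_ℝ = Y := by
        rw [hz, inner_add_right, inner_smul_right, inner_smul_right, huu, huw]; ring
      have hzn : ‖z‖ ^ 2 = Y ^ 2 + H := by
        rw [hz, norm_add_sq_real, inner_smul_left, inner_smul_right, huw, norm_smul, norm_smul, hu,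
          hw]
        simp [Real.sq_sqrt hH0]
      have hzb : z ∈ ball u ρ := by
        rw [mem_ball_iff_norm]
        have h3 : ‖z - (1 : ℝ) • u‖ ^ 2 < ρ ^ 2 := by
          rw [norm_sub_smul_sq u z hu, hzn, huz]
          have h4 : (Y - 1) ^ 2 ≤ (ρ / 2) ^ 2 := by
            apply sq_le_sq'
            · rw [hY]; linarith
            · rw [hY]; linarith
          have h4' : Y ^ 2 + H - 2 * 1 * Y + 1 ^ 2 = (Y - 1) ^ 2 + H := by ring
          have h4'' : (ρ / 2) ^ 2 = ρ ^ 2 / 4 := by ring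
          have h4''' : 0 < ρ ^ 2 := by positivity
          rw [h4']
          linarith
        rw [one_smul] at h3
        exact lt_of_pow_lt_pow_left₀ 2 hρ.le h3
      have hzN : z ∈ zeroSet (gOf φ) := by
        rw [mem_zeroSet_gOf, hloc z hzb, huz, hzn, hH]; ring
      have h5 : q + t • (-u) = (y - t) • u := by
        rw [hq, smul_neg, ← sub_eq_add_neg, ← sub_smul]
      have h6 : ‖z - (y - t) • u‖ ^ 2 < t ^ 2 := by
        rw [norm_sub_smul_sq u z hu, hzn, huz]
        have h7 : Y ^ 2 + H - 2 * (y - t) * Y + (y - t) ^ 2 - t ^ 2 = ε * (δ * ε - 2 * s) := by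
          rw [hH, hY, hs, hr, hc]; linear_combination hy
        have h8 : δ * ε - 2 * s < 0 := by
          have : δ * ε ≤ ε := mul_le_of_le_one_left hε0.le (by linarith)
          linarith
        linarith [mul_neg_of_pos_of_neg hε0 h8]
      have h9 : infDist ((y - t) • u) (zeroSet (gOf φ)) ≤ ‖z - (y - t) • u‖ := by
        rw [← dist_eq_norm, dist_comm]; exact infDist_le_dist_of_mem hzN
      simp only at ht
      rw [h5] at ht
      have := lt_of_pow_lt_pow_left₀ 2 ht0 h6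
      linarith

lemma one_le_norm (φ : Plane → ℝ) (hφ0 : ∀ z, 0 ≤ φ z) (z : Plane) (hz : z ∈ zeroSet (gOf φ)) :
    1 ≤ ‖z‖ := by
  rw [mem_zeroSet_gOf] at hz
  by_contra h
  rw [not_le] at h
  nlinarith [hφ0 z, norm_nonneg z]

lemma hasFDerivAt_gOf (φ : Plane → ℝ) (hφ : Differentiable ℝ φ) (p : Plane) :
    HasFDerivAt (gOf φ) (2 • innerSL ℝ p - fderiv ℝ φ p) p :=
  ((hasStrictFDerivAt_norm_sq p).hasFDerivAt.sub_const 1).sub (hφ p).hasFDerivAt

theorem limit_cut (φ : Plane → ℝ) (hφ0 : ∀ z, 0 ≤ φ z) (hφ : Differentiable ℝ φ) (e : Plane)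
    (he : ‖e‖ = 1) (h1 : φ e = 0) (h2 : φ (-e) = 0) :
    (e, -e) ∈ tangentCutLocus (gOf φ) ∧ (0 : Plane) ∈ sepSet (gOf φ) := by
  have heN : e ∈ zeroSet (gOf φ) := by rw [mem_zeroSet_gOf, he, h1]; norm_num
  have heN' : -e ∈ zeroSet (gOf φ) := by rw [mem_zeroSet_gOf, norm_neg, he, h2]; norm_num
  have hd : infDist (0 : Plane) (zeroSet (gOf φ)) = 1 := by
    apply le_antisymm
    · have := infDist_le_dist_of_mem (x := (0 : Plane)) heN
      simpa [he] using this
    · rw [le_infDist ⟨e, heN⟩]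
      intro z hz
      simpa using one_le_norm φ hφ0 z hz
  constructor
  · refine ⟨(e, -e), ⟨heN, by simpa using he, fun v hv => ?_⟩, 1, ?_, by simp⟩
    · have h3 : fderiv ℝ φ e = 0 := by
        apply IsLocalMin.fderiv_eq_zero
        exact Eventually.of_forall fun z => by rw [h1]; exact hφ0 z
      simp only at hv
      rw [(hasFDerivAt_gOf φ hφ e).fderiv, h3] at hv
      simpa using hv
    · apply IsGreatest.isLUB
      constructor
      · exact ⟨zero_le_one, by simpa using hd⟩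
      · rintro t ⟨ht0, ht⟩
        by_contra hlt
        rw [not_le] at hlt
        have h4 := infDist_le_dist_of_mem (x := e + t • (-e)) heN'
        simp only at ht
        rw [ht, dist_eq_norm] at h4
        have h5 : e + t • (-e) - -e = (2 - t) • e := by
          rw [sub_smul, two_smul, smul_neg]; abel
        rw [h5, norm_smul, he, Real.norm_eq_abs, mul_one, le_abs] at h4
        rcases h4 with h | h <;> linarith
  · refine ⟨fun t => e + t • (-e), fun t => -e + t • e, 1,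
      ⟨zero_le_one, ⟨e, heN, -e, by simpa using he, fun _ _ => rfl⟩, by simpa using hd⟩,
      ⟨zero_le_one, ⟨-e, heN', e, he, fun _ _ => rfl⟩, by simpa using hd⟩, by simp, by simp, 0,
      ⟨le_rfl, zero_le_one⟩, ?_⟩
    simp only [zero_smul, add_zero]
    intro h
    have h3 : (2 : ℝ) • e = 0 := by rw [two_smul]; nth_rewrite 1 [h]; simp
    have h4 : e = 0 := (smul_eq_zero.mp h3).resolve_left (by norm_num)
    rw [h4, norm_zero] at he
    exact zero_ne_one he

theorem regular_gOf (φ : Plane → ℝ) (hφ0 : ∀ z, 0 ≤ φ z) (hφ : ContDiff ℝ ∞ φ)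
    (hd : ∀ x, ‖fderiv ℝ φ x‖ ≤ 1) : IsRegularDefiningFunction (gOf φ) := by
  refine ⟨((contDiff_norm_sq ℝ).sub contDiff_const).sub hφ, fun p hp h => ?_⟩
  rw [(hasFDerivAt_gOf φ (hφ.differentiable (by simp)) p).fderiv] at h
  have h1 := congrArg (fun L : Plane →L[ℝ] ℝ => L p) h
  simp only [sub_apply, smul_apply, innerSL_apply_apply, real_inner_self_eq_norm_sq, nsmul_eq_mul,
    Nat.cast_ofNat, zero_apply] at h1
  have h2 : fderiv ℝ φ p p ≤ 1 * ‖p‖ :=
    (le_abs_self _).trans (((fderiv ℝ φ p).le_opNorm p).trans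
      (mul_le_mul_of_nonneg_right (hd p) (norm_nonneg _)))
  nlinarith [one_le_norm φ hφ0 p hp]

theorem compact_gOf (φ : Plane → ℝ) (hφ1 : ∀ z, φ z ≤ 1) (hφ : Continuous φ) :
    IsCompact (zeroSet (gOf φ)) := by
  apply Metric.isCompact_of_isClosed_isBounded
  · exact isClosed_eq (by unfold gOf; fun_prop) continuous_const
  · refine (isBounded_closedBall (x := (0 : Plane)) (r := 2)).subset fun z hz => ?_
    rw [mem_zeroSet_gOf] at hz
    rw [mem_closedBall_zero_iff]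
    nlinarith [hφ1 z, norm_nonneg z]

theorem connected_gOf (φ : Plane → ℝ) (hφ0 : ∀ z, 0 ≤ φ z) (hφ1 : ∀ z, φ z ≤ 1)
    (hφ : Differentiable ℝ φ) (hd : ∀ x, ‖fderiv ℝ φ x‖ ≤ 1) :
    IsConnected (zeroSet (gOf φ)) := by
  have hN := compact_gOf φ hφ1 hφ.continuous
  have hlip : ∀ x y, |φ x - φ y| ≤ ‖x - y‖ := by
    intro x y
    have := (convex_univ (𝕜 := ℝ) (E := Plane)).norm_image_sub_le_of_norm_fderiv_le (f := φ) (C := 1)
      (fun x _ => hφ x) (fun x _ => hd x) (mem_univ y) (mem_univ x)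
    simpa using this
  have hpos : ∀ z : zeroSet (gOf φ), 0 < ‖(z : Plane)‖ := fun z =>
    lt_of_lt_of_le one_pos (one_le_norm φ hφ0 z z.2)
  let π : zeroSet (gOf φ) → sphere (0 : Plane) 1 := fun z =>
    ⟨‖(z : Plane)‖⁻¹ • (z : Plane), by
      rw [mem_sphere_zero_iff_norm, norm_smul, norm_inv, norm_norm, inv_mul_cancel₀ (hpos z).ne']⟩
  have hπc : Continuous π := by
    apply Continuous.subtype_mk
    exact (continuous_subtype_val.norm.inv₀ (fun z => (hpos z).ne')).smul continuous_subtype_val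
  have hinj : Function.Injective π := by
    intro z z' h
    have h1 : ‖(z : Plane)‖⁻¹ • (z : Plane) = ‖(z' : Plane)‖⁻¹ • (z' : Plane) :=
      congrArg Subtype.val h
    set v := ‖(z : Plane)‖⁻¹ • (z : Plane) with hv
    have hv1 : ‖v‖ = 1 := mem_sphere_zero_iff_norm.mp (π z).2
    have e1 : (z : Plane) = ‖(z : Plane)‖ • v := by
      rw [hv, smul_smul, mul_inv_cancel₀ (hpos z).ne', one_smul]
    have e2 : (z' : Plane) = ‖(z' : Plane)‖ • v := by
      rw [h1, smul_smul, mul_inv_cancel₀ (hpos z').ne', one_smul]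
    have e3 : ‖(z : Plane) - z'‖ = |‖(z : Plane)‖ - ‖(z' : Plane)‖| := by
      conv_lhs => rw [e1, e2, ← sub_smul, norm_smul, hv1, mul_one, Real.norm_eq_abs]
    have h2 := hlip z z'
    have h3 := (mem_zeroSet_gOf φ z).mp z.2
    have h4 := (mem_zeroSet_gOf φ z').mp z'.2
    have h5 := one_le_norm φ hφ0 z z.2
    have h6 := one_le_norm φ hφ0 z' z'.2
    have h7 : φ z - φ z' = (‖(z : Plane)‖ - ‖(z' : Plane)‖) * (‖(z : Plane)‖ + ‖(z' : Plane)‖) := by
      linarith
    rw [e3, h7, abs_mul, abs_of_pos (by linarith : 0 < ‖(z : Plane)‖ + ‖(z' : Plane)‖)] at h2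
    have h8 : |‖(z : Plane)‖ - ‖(z' : Plane)‖| = 0 := by
      nlinarith [abs_nonneg (‖(z : Plane)‖ - ‖(z' : Plane)‖)]
    apply Subtype.ext
    rw [← sub_eq_zero, ← norm_eq_zero, e3, h8]
  have hsurj : Function.Surjective π := by
    intro v
    have hv1 : ‖(v : Plane)‖ = 1 := mem_sphere_zero_iff_norm.mp v.2
    have hc : Continuous fun t : ℝ => t ^ 2 - 1 - φ (t • (v : Plane)) := by
      have := hφ.continuous
      fun_prop
    obtain ⟨t, ⟨ht1, -⟩, ht⟩ : ∃ t ∈ Icc (1 : ℝ) 2, t ^ 2 - 1 - φ (t • (v : Plane)) = 0 := by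
      apply intermediate_value_Icc (by norm_num) hc.continuousOn
      constructor
      · simpa using hφ0 _
      · show (0 : ℝ) ≤ 2 ^ 2 - 1 - φ ((2 : ℝ) • (v : Plane))
        linarith [hφ1 ((2 : ℝ) • (v : Plane))]
    have hn : ‖t • (v : Plane)‖ = t := by
      rw [norm_smul, hv1, mul_one, Real.norm_eq_abs, abs_of_pos (by linarith)]
    refine ⟨⟨t • (v : Plane), by rw [mem_zeroSet_gOf, hn]; linarith⟩, Subtype.ext ?_⟩
    show ‖t • (v : Plane)‖⁻¹ • t • (v : Plane) = v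
    rw [hn, smul_smul, inv_mul_cancel₀ (by linarith), one_smul]
  have : CompactSpace (zeroSet (gOf φ)) := isCompact_iff_compactSpace.mp hN
  have hS : ConnectedSpace (sphere (0 : Plane) 1) := by
    apply Subtype.connectedSpace
    apply isConnected_sphere _ _ zero_le_one
    rw [← Module.finrank_eq_rank]
    simp
  let h := (Equiv.ofBijective π ⟨hinj, hsurj⟩).toHomeomorphOfContinuousClosed hπc hπc.isClosedMap
  rw [isConnected_iff_connectedSpace]
  exact h.symm.surjective.connectedSpace h.symm.continuous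

end Pool.Agent.H760Z.Cut
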