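import Mathlib

/-! # Smooth sums of compactly supported functions -/

set_option autoImplicit false

open Set Filter
open scoped ContDiff

namespace Pool.Agent.H760Z.Cut

theorem exists_smooth_sum {E : Type} [NormedAddCommGroup E] [NormedSpace ℝ E]
    (g : ℕ → E → ℝ) (hg : ∀ n, ContDiff ℝ ∞ (g n)) (hc : ∀ n, HasCompactSupport (g n)) :
    ∃ δ : ℕ → ℝ, (∀ n, 0 < δ n) ∧ (∀ n, δ n ≤ (1 / 2) ^ (n + 1)) ∧
      (∀ n x, |δ n * g n x| ≤ (1 / 2) ^ (n + 1)) ∧
      ContDiff ℝ ∞ (fun x => ∑' n, δ n * g n x) ∧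
      ∀ x, ‖fderiv ℝ (fun x => ∑' n, δ n * g n x) x‖ ≤ 1 := by
  have key : ∀ n : ℕ, ∃ r : ℝ, 0 < r ∧ r ≤ (1 / 2) ^ (n + 1) ∧
      ∀ i ≤ n + 1, ∀ x, ‖iteratedFDeriv ℝ i (r • g n) x‖ ≤ (1 / 2) ^ (n + 1) := by
    intro n
    have : ∀ i, ∃ R, ∀ x, ‖iteratedFDeriv ℝ i (g n) x‖ ≤ R := by
      intro i
      have : BddAbove (range fun x => ‖iteratedFDeriv ℝ i (g n) x‖) := by
        apply ((hg n).continuous_iteratedFDeriv
          (mod_cast le_top)).norm.bddAbove_range_of_hasCompactSupport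
        apply HasCompactSupport.comp_left _ norm_zero
        apply (hc n).iteratedFDeriv
      rcases this with ⟨R, hR⟩
      exact ⟨R, fun x => hR (mem_range_self _)⟩
    choose R hR using this
    let M : ℝ := 1 + ∑ i ∈ Finset.range (n + 2), |R i|
    have hS : 0 ≤ ∑ i ∈ Finset.range (n + 2), |R i| := Finset.sum_nonneg fun i _ => abs_nonneg _
    have hM1 : 1 ≤ M := by simp only [M]; linarith
    have IR : ∀ i ≤ n + 1, R i ≤ M := by
      intro i hi
      have : |R i| ≤ ∑ i ∈ Finset.range (n + 2), |R i| :=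
        Finset.single_le_sum (f := fun i => |R i|) (fun i _ => abs_nonneg _)
          (Finset.mem_range.mpr (by omega))
      simp only [M]
      linarith [le_abs_self (R i)]
    have hM0 : 0 < M := by linarith
    refine ⟨M⁻¹ * (1 / 2) ^ (n + 1), by positivity, ?_, fun i hi x => ?_⟩
    · have : M⁻¹ ≤ 1 := inv_le_one_of_one_le₀ hM1
      have h2 : (0 : ℝ) ≤ (1 / 2) ^ (n + 1) := by positivity
      nlinarith
    · rw [iteratedFDeriv_const_smul_apply ((hg n).of_le (mod_cast le_top)).contDiffAt, norm_smul,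
        Real.norm_eq_abs, abs_of_pos (by positivity)]
      calc M⁻¹ * (1 / 2) ^ (n + 1) * ‖iteratedFDeriv ℝ i (g n) x‖
          ≤ M⁻¹ * (1 / 2) ^ (n + 1) * M := by
            gcongr
            exact (hR i x).trans (IR i hi)
        _ = (1 / 2) ^ (n + 1) := by field_simp
  choose δ δpos δle hδ using key
  have hsum : Summable (fun n : ℕ => (1 / 2 : ℝ) ^ (n + 1)) :=
    (summable_nat_add_iff 1).mpr summable_geometric_two
  have hval : ∀ n x, |δ n * g n x| ≤ (1 / 2) ^ (n + 1) := by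
    intro n x
    have := hδ n 0 (Nat.zero_le _) x
    rwa [norm_iteratedFDeriv_zero, Pi.smul_apply, smul_eq_mul, Real.norm_eq_abs] at this
  refine ⟨δ, δpos, δle, hval, ?_, fun x => ?_⟩
  · apply contDiff_tsum_of_eventually (f := fun n => δ n • g n)
      (v := fun _ n => (1 / 2 : ℝ) ^ (n + 1)) (fun n => (hg n).const_smul (δ n))
      (fun _ _ => hsum)
    intro i _
    simp only [Nat.cofinite_eq_atTop, eventually_atTop]
    exact ⟨i, fun n hn x => hδ n i (by omega) x⟩
  · have hd : ∀ n, Differentiable ℝ (δ n • g n) := fun n =>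
      ((hg n).const_smul (δ n)).differentiable (by simp)
    have hb : ∀ n x, ‖fderiv ℝ (δ n • g n) x‖ ≤ (1 / 2 : ℝ) ^ (n + 1) := by
      intro n x
      have := hδ n 1 (by omega) x
      rwa [norm_iteratedFDeriv_one] at this
    have h0 : Summable fun n => (δ n • g n) x :=
      Summable.of_norm_bounded hsum (fun n => hval n x)
    have h1 := fderiv_tsum_apply hsum hd hb h0 x
    have h2 : (fun x => ∑' n, δ n * g n x) = fun y => ∑' n, (δ n • g n) y := rfl
    rw [h2, h1]
    refine (tsum_of_norm_bounded hsum.hasSum (fun n => hb n x)).trans (le_of_eq ?_)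
    simp_rw [pow_succ]
    rw [tsum_mul_right, tsum_geometric_two]
    norm_num

end Pool.Agent.H760Z.Cut
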