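import Pool.Agent.H760Z.Cut.Local
import Pool.Agent.H760Z.Cut.Series

/-! # The perturbed circle -/

set_option autoImplicit false

open Set Metric Filter Topology
open scoped InnerProductSpace ContDiff

namespace Pool.Agent.H760Z.Cut

/-- heights of the bumps centres -/
noncomputable def sn (n : ℕ) : ℝ := (1 / 2) ^ (n + 1)

lemma sn_pos (n : ℕ) : 0 < sn n := by unfold sn; positivity

lemma sn_le (n : ℕ) : sn n ≤ 1 / 2 := by
  unfold sn
  rw [pow_succ]
  have : (1 / 2 : ℝ) ^ n ≤ 1 := pow_le_one₀ (by norm_num) (by norm_num)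
  linarith

lemma sn_lt (n m : ℕ) (h : n < m) : sn m ≤ sn n / 2 := by
  unfold sn
  have : (1 / 2 : ℝ) ^ (m + 1) ≤ (1 / 2) ^ (n + 1 + 1) :=
    pow_le_pow_of_le_one (by norm_num) (by norm_num) (by omega)
  rw [pow_succ _ (n + 1)] at this
  linarith

lemma sn_tendsto : Tendsto sn atTop (𝓝 0) :=
  (tendsto_pow_atTop_nhds_zero_of_lt_one (by norm_num) (by norm_num)).comp
    (tendsto_add_atTop_nat 1)

/-- centres -/
noncomputable def un (n : ℕ) : Plane := !₂[Real.sqrt (1 - sn n ^ 2), sn n]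

/-- tangent directions -/
noncomputable def wn (n : ℕ) : Plane := !₂[-sn n, Real.sqrt (1 - sn n ^ 2)]

/-- limit direction -/
noncomputable def ee : Plane := !₂[1, 0]

lemma one_sub_nonneg (n : ℕ) : 0 ≤ 1 - sn n ^ 2 := by nlinarith [sn_pos n, sn_le n]

lemma norm_un (n : ℕ) : ‖un n‖ = 1 := by
  rw [EuclideanSpace.norm_eq, Real.sqrt_eq_one]
  simp [un, Real.sq_sqrt (one_sub_nonneg n)]

lemma norm_wn (n : ℕ) : ‖wn n‖ = 1 := by
  rw [EuclideanSpace.norm_eq, Real.sqrt_eq_one]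
  simp [wn, Real.sq_sqrt (one_sub_nonneg n)]

lemma norm_ee : ‖ee‖ = 1 := by
  rw [EuclideanSpace.norm_eq, Real.sqrt_eq_one]
  simp [ee]

lemma inner_un_wn (n : ℕ) : ⟪un n, wn n⟫_ℝ = 0 := by
  simp [un, wn, PiLp.inner_apply]
  ring

lemma un_tendsto : Tendsto un atTop (𝓝 ee) := by
  have hc : Continuous fun s : ℝ => (!₂[Real.sqrt (1 - s ^ 2), s] : Plane) := by
    refine (PiLp.continuous_toLp 2 _).comp ?_
    refine continuous_pi fun i => ?_
    fin_cases i <;> simp <;> fun_prop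
  have := (hc.tendsto 0).comp sn_tendsto
  have h0 : (!₂[Real.sqrt (1 - (0 : ℝ) ^ 2), 0] : Plane) = ee := by simp [ee]
  rw [h0] at this
  exact this

/-- bumps -/
noncomputable def bump (n : ℕ) : ContDiffBump (un n) :=
  ⟨sn n / 8, sn n / 4, by linarith [sn_pos n], by linarith [sn_pos n]⟩

/-- the summands -/
noncomputable def GG (n : ℕ) (z : Plane) : ℝ :=
  bump n z * (⟪un n, z⟫_ℝ - (1 - (sn n / 8) ^ 2 / 2)) ^ 2

lemma GG_smooth (n : ℕ) : ContDiff ℝ ∞ (GG n) :=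
  (bump n).contDiff.mul (((innerSL ℝ (un n)).contDiff.sub contDiff_const).pow 2)

lemma GG_compact (n : ℕ) : HasCompactSupport (GG n) :=
  (bump n).hasCompactSupport.mul_right

lemma GG_nonneg (n : ℕ) (z : Plane) : 0 ≤ GG n z := mul_nonneg (bump n).nonneg (sq_nonneg _)

lemma coord_le (n : ℕ) (z : Plane) : |z 1 - sn n| ≤ dist z (un n) := by
  have := PiLp.dist_apply_le z (un n) 1
  simpa [un, Real.dist_eq] using this

lemma GG_zero (n : ℕ) (z : Plane) (h : sn n / 4 ≤ |z 1 - sn n|) : GG n z = 0 := by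
  rw [GG, (bump n).zero_of_le_dist (h.trans (coord_le n z)), zero_mul]

theorem exists_phi : ∃ (φ : Plane → ℝ) (δ : ℕ → ℝ), (∀ z, 0 ≤ φ z) ∧ (∀ z, φ z ≤ 1) ∧
    ContDiff ℝ ∞ φ ∧ (∀ x, ‖fderiv ℝ φ x‖ ≤ 1) ∧ φ ee = 0 ∧ φ (-ee) = 0 ∧
    (∀ n, 0 < δ n) ∧ (∀ n, δ n ≤ sn n) ∧
    ∀ n, ∀ z ∈ ball (un n) (sn n / 8),
      φ z = δ n * (⟪un n, z⟫_ℝ - (1 - (sn n / 8) ^ 2 / 2)) ^ 2 := by
  obtain ⟨δ, h1, h2, h3, h4, h5⟩ := exists_smooth_sum GG GG_smooth GG_compact
  have hsum : Summable (fun n : ℕ => (1 / 2 : ℝ) ^ (n + 1)) :=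
    (summable_nat_add_iff 1).mpr summable_geometric_two
  have hz : ∀ z : Plane, z 1 = 0 → ∑' n, δ n * GG n z = 0 := by
    intro z hz
    have : ∀ n, δ n * GG n z = 0 := by
      intro n
      rw [GG_zero n z, mul_zero]
      rw [hz, zero_sub, abs_neg, abs_of_pos (sn_pos n)]
      linarith [sn_pos n]
    simp [this]
  refine ⟨fun x => ∑' n, δ n * GG n x, δ, fun z => tsum_nonneg fun n =>
    mul_nonneg (h1 n).le (GG_nonneg n z), fun z => ?_, h4, h5, hz _ (by simp [ee]),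
    hz _ (by simp [ee]), h1, h2, fun n z hzb => ?_⟩
  · refine (le_abs_self _).trans ?_
    rw [← Real.norm_eq_abs]
    refine (tsum_of_norm_bounded hsum.hasSum (fun n => h3 n z)).trans (le_of_eq ?_)
    simp_rw [pow_succ]
    rw [tsum_mul_right, tsum_geometric_two]
    norm_num
  · have hb : |z 1 - sn n| < sn n / 8 := lt_of_le_of_lt (coord_le n z) hzb
    rw [abs_lt] at hb
    show ∑' m, δ m * GG m z = _
    rw [tsum_eq_single n]
    · rw [GG, (bump n).one_of_mem_closedBall (ball_subset_closedBall hzb), one_mul]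
    · intro m hm
      rw [GG_zero m z, mul_zero]
      rcases lt_or_gt_of_ne hm with h | h
      · have := sn_lt m n h
        rw [le_abs]
        right
        linarith [sn_pos n, sn_pos m]
      · have := sn_lt n m h
        rw [le_abs]
        left
        linarith [sn_pos n, sn_pos m]

theorem main_example : ∃ g : Plane → ℝ, IsRegularDefiningFunction g ∧ IsCompact (zeroSet g) ∧
    IsConnected (zeroSet g) ∧ ∃ (x : Plane × Plane) (y : ℕ → Plane × Plane),
      x ∈ tangentCutLocus g ∧ normalExp x ∈ sepSet g ∧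
      (∀ n, y n ∈ tangentCutLocus g ∧ normalExp (y n) ∉ sepSet g) ∧ Tendsto y atTop (𝓝 x) := by
  obtain ⟨φ, δ, h0, h1, hs, hd, he, he', hδ0, hδ1, hloc⟩ := exists_phi
  have hdiff : Differentiable ℝ φ := hs.differentiable (by simp)
  have hl := fun n => local_cut φ h0 (un n) (wn n) (norm_un n) (norm_wn n) (inner_un_wn n)
    (sn n / 8) (δ n) (by linarith [sn_pos n]) (by linarith [sn_le n]) (hδ0 n)
    ((hδ1 n).trans (sn_le n)) (hloc n)
  choose y c hy1 hy2 hc0 hc1 hcut hsep using hl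
  obtain ⟨h2, h3⟩ := limit_cut φ h0 hdiff ee norm_ee he he'
  refine ⟨gOf φ, regular_gOf φ h0 hs hd, compact_gOf φ h1 hs.continuous,
    connected_gOf φ h0 h1 hdiff hd, (ee, -ee), fun n => (y n • un n, (y n - c n) • (-un n)), h2,
    by simpa [normalExp] using h3, fun n => ⟨hcut n, ?_⟩, ?_⟩
  · have : normalExp (y n • un n, (y n - c n) • (-un n)) = c n • un n := by
      simp only [normalExp]
      rw [smul_neg, ← sub_eq_add_neg, ← sub_smul]
      congr 1
      ring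
    rw [this]
    exact hsep n
  · have hy : Tendsto y atTop (𝓝 1) := by
      have h4 : Tendsto (fun n => 1 + sn n / 8) atTop (𝓝 1) := by
        simpa using (sn_tendsto.div_const 8).const_add 1
      exact tendsto_of_tendsto_of_tendsto_of_le_of_le tendsto_const_nhds h4 hy1 hy2
    have hc : Tendsto c atTop (𝓝 0) :=
      tendsto_of_tendsto_of_tendsto_of_le_of_le tendsto_const_nhds sn_tendsto hc0
        (fun n => (hc1 n).trans (hδ1 n))
    have h5 := (hy.smul un_tendsto).prodMk_nhds ((hy.sub hc).smul un_tendsto.neg)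
    simpa using h5

lemma not_isOpen_of_seq {X : Type} [TopologicalSpace X] (C S : Set X) (x : X) (y : ℕ → X)
    (hx : x ∈ C) (hxS : x ∈ S) (hy : ∀ n, y n ∈ C ∧ y n ∉ S) (h : Tendsto y atTop (𝓝 x)) :
    ¬ IsOpen {z : C | (z : X) ∈ S} := by
  intro ho
  have h1 : Tendsto (fun n => (⟨y n, (hy n).1⟩ : C)) atTop (𝓝 ⟨x, hx⟩) :=
    tendsto_subtype_rng.mpr h
  obtain ⟨n, hn⟩ := (h1.eventually (ho.mem_nhds hxS)).exists
  exact (hy n).2 hn

theorem answer_Q1 : ∃ g : Plane → ℝ, IsRegularDefiningFunction g ∧ IsCompact (zeroSet g) ∧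
    IsConnected (zeroSet g) ∧
    ¬ IsOpen {z : tangentCutLocus g | (z : Plane × Plane) ∈ tangentSepSet g} := by
  obtain ⟨g, h1, h2, h3, x, y, hx, hxS, hy, h⟩ := main_example
  exact ⟨g, h1, h2, h3, not_isOpen_of_seq _ _ x y hx ⟨hx, hxS⟩
    (fun n => ⟨(hy n).1, fun hh => (hy n).2 hh.2⟩) h⟩

theorem answer_Q2 : ∃ g : Plane → ℝ, IsRegularDefiningFunction g ∧ IsCompact (zeroSet g) ∧
    IsConnected (zeroSet g) ∧ ¬ IsOpen {z : cutLocus g | (z : Plane) ∈ sepSet g} := by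
  obtain ⟨g, h1, h2, h3, x, y, hx, hxS, hy, h⟩ := main_example
  have hc : Continuous normalExp := continuous_fst.add continuous_snd
  exact ⟨g, h1, h2, h3, not_isOpen_of_seq _ _ (normalExp x) (fun n => normalExp (y n))
    ⟨x, hx, rfl⟩ hxS (fun n => ⟨⟨y n, (hy n).1, rfl⟩, (hy n).2⟩) ((hc.tendsto x).comp h)⟩

end Pool.Agent.H760Z.Cut
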